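import Mathlib

/-!
# Lower central series of an associative ring: basic inclusions

`C A k` is the `k+1`-st member `L_{k+1}` of the lower central series of `A`,
`N A k` is the additive span of all `a * l`, `l ∈ C A k` (the ideal `M_{k+1}`).
-/

namespace Pool.Agent.H78.LCS

variable (A : Type*) [Ring A]

/-- `C A k = L_{k+1}(A)`. -/
def C : ℕ → AddSubgroup A
  | 0 => ⊤
  | (k + 1) => AddSubgroup.closure {z | ∃ a : A, ∃ l ∈ C k, z = a * l - l * a}

/-- `N A k = M_{k+1}(A)`, the span of `a * l` with `l ∈ L_{k+1}`. -/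
def N (k : ℕ) : AddSubgroup A := AddSubgroup.closure {z | ∃ a : A, ∃ l ∈ C A k, z = a * l}

variable {A}

lemma mem_C_zero (a : A) : a ∈ C A 0 := AddSubgroup.mem_top a

lemma br_mem {k : ℕ} (a : A) {l : A} (hl : l ∈ C A k) : a * l - l * a ∈ C A (k + 1) :=
  AddSubgroup.subset_closure ⟨a, l, hl, rfl⟩

lemma br_mem' {k : ℕ} (a : A) {l : A} (hl : l ∈ C A k) : l * a - a * l ∈ C A (k + 1) := by
  have := neg_mem (br_mem a hl)
  rwa [neg_sub] at this

lemma C_succ_le (k : ℕ) : C A (k + 1) ≤ C A k := by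
  induction k with
  | zero => exact le_top
  | succ k ih =>
    rw [C, AddSubgroup.closure_le]
    rintro z ⟨a, l, hl, rfl⟩
    exact br_mem a (ih hl)

lemma C_anti : Antitone (C A) := antitone_nat_of_succ_le C_succ_le

/-- induction principle for `C A (k+1)` -/
lemma C_succ_induction {k : ℕ} {S : AddSubgroup A}
    (h : ∀ a l : A, l ∈ C A k → a * l - l * a ∈ S) : C A (k + 1) ≤ S := by
  rw [C, AddSubgroup.closure_le]
  rintro z ⟨a, l, hl, rfl⟩
  exact h a l hl

/-- `[L_i, L_j] ⊆ L_{i+j}` -/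
lemma br_C_C (i : ℕ) : ∀ (j : ℕ) {l m : A}, l ∈ C A i → m ∈ C A j →
    l * m - m * l ∈ C A (i + j + 1) := by
  induction i with
  | zero =>
    intro j l m _ hm
    rw [zero_add]
    exact br_mem l hm
  | succ i ih =>
    intro j l m hl hm
    let S : AddSubgroup A := (C A (i + 1 + j + 1)).comap
      ((AddMonoidHom.mulRight m) - (AddMonoidHom.mulLeft m))
    have hS : ∀ z, z ∈ S ↔ z * m - m * z ∈ C A (i + 1 + j + 1) := by
      intro z
      rfl
    have : C A (i + 1) ≤ S := by
      apply C_succ_induction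
      intro a l hl
      rw [hS]
      have h1 : a * (l * m - m * l) - (l * m - m * l) * a ∈ C A (i + j + 1 + 1) :=
        br_mem a (ih j hl hm)
      have h2 : l * (a * m - m * a) - (a * m - m * a) * l ∈ C A (i + (j + 1) + 1) :=
        ih (j + 1) hl (br_mem a hm)
      have e1 : i + 1 + j + 1 = i + j + 1 + 1 := by ring
      have e2 : i + (j + 1) + 1 = i + j + 1 + 1 := by ring
      rw [e1]
      rw [e2] at h2
      have := sub_mem h1 h2
      convert this using 1
      noncomm_ring
    exact (hS l).1 (this hl)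

lemma N_le_iff {k : ℕ} {S : AddSubgroup A} : N A k ≤ S ↔ ∀ a l : A, l ∈ C A k → a * l ∈ S := by
  rw [N, AddSubgroup.closure_le]
  constructor
  · intro h a l hl
    exact h ⟨a, l, hl, rfl⟩
  · rintro h z ⟨a, l, hl, rfl⟩
    exact h a l hl

lemma mul_mem_N {k : ℕ} (a : A) {l : A} (hl : l ∈ C A k) : a * l ∈ N A k :=
  AddSubgroup.subset_closure ⟨a, l, hl, rfl⟩

lemma C_le_N (k : ℕ) : C A k ≤ N A k := by
  intro l hl
  simpa using mul_mem_N (1 : A) hl

lemma N_mul_left {k : ℕ} (a : A) {m : A} (hm : m ∈ N A k) : a * m ∈ N A k := by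
  have : N A k ≤ (N A k).comap (AddMonoidHom.mulLeft a) := by
    rw [N_le_iff]
    intro b l hl
    show a * (b * l) ∈ N A k
    rw [← mul_assoc]
    exact mul_mem_N _ hl
  exact this hm

lemma N_mul_right {k : ℕ} (a : A) {m : A} (hm : m ∈ N A k) : m * a ∈ N A k := by
  have : N A k ≤ (N A k).comap (AddMonoidHom.mulRight a) := by
    rw [N_le_iff]
    intro b l hl
    show (b * l) * a ∈ N A k
    have h1 : b * (l * a - a * l) ∈ N A k := mul_mem_N b (C_succ_le k (br_mem' a hl))
    have h2 : (b * a) * l ∈ N A k := mul_mem_N (b * a) hl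
    have := add_mem h1 h2
    convert this using 1
    noncomm_ring
  exact this hm

lemma N_anti : Antitone (N A) := by
  intro i j hij
  rw [N_le_iff]
  intro a l hl
  exact mul_mem_N a (C_anti hij hl)

/-- to bound `[N k, A]`, it is enough to bound `[a l, c]` -/
lemma br_N_of {k : ℕ} {S : AddSubgroup A} (c : A)
    (h : ∀ a l : A, l ∈ C A k → (a * l) * c - c * (a * l) ∈ S) {m : A} (hm : m ∈ N A k) :
    m * c - c * m ∈ S := by
  have : N A k ≤ S.comap ((AddMonoidHom.mulRight c) - (AddMonoidHom.mulLeft c)) := by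
    rw [N_le_iff]
    intro a l hl
    exact h a l hl
  exact this hm

lemma br_swap {S : AddSubgroup A} {a b : A} (h : a * b - b * a ∈ S) : b * a - a * b ∈ S := by
  have := neg_mem h
  rwa [neg_sub] at this

/-- `[M_3, A] ⊆ L_3` -/
lemma br_N2 {m : A} (hm : m ∈ N A 2) (c : A) : m * c - c * m ∈ C A 2 := by
  refine br_N_of c ?_ hm
  intro a l hl
  have : C A 2 ≤ (C A 2).comap (((AddMonoidHom.mulRight c) - (AddMonoidHom.mulLeft c)).comp
      (AddMonoidHom.mulLeft a)) := by
    apply C_succ_induction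
    intro b l' hl'
    show (a * (b * l' - l' * b)) * c - c * (a * (b * l' - l' * b)) ∈ C A 2
    have h1 : (b * (a * l') - (a * l') * b) * c - c * (b * (a * l') - (a * l') * b) ∈ C A 2 :=
      br_mem' c (br_mem b (mem_C_zero (a * l')))
    have h2 : (b * a - a * b) * (l' * c) - (l' * c) * (b * a - a * b) ∈ C A 2 :=
      br_mem' _ (br_mem b (mem_C_zero a))
    have h3 : l' * (c * (b * a - a * b)) - (c * (b * a - a * b)) * l' ∈ C A 2 :=
      br_mem' _ hl'
    have := sub_mem h1 (add_mem h2 h3)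
    convert this using 1
    noncomm_ring
  exact this hl

/-- The inductive step. -/
lemma step {k n : ℕ} (hkn : n + 2 ≤ k + 1)
    (H : ∀ m ∈ N A k, ∀ c : A, m * c - c * m ∈ C A n) :
    ∀ m ∈ N A (k + 2), ∀ c : A, m * c - c * m ∈ C A (n + 2) := by
  -- commutator notation
  let B : A → A → A := fun a b => a * b - b * a
  have hB : ∀ a b, B a b = a * b - b * a := fun _ _ => rfl
  have hk1 : C A (k + 1) ≤ C A (n + 2) := C_anti hkn
  have hk2 : C A (k + 2) ≤ C A (n + 2) := C_anti (by omega)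
  have hk3 : C A (k + 3) ≤ C A (n + 2) := C_anti (by omega)
  have hk4 : C A (k + 4) ≤ C A (n + 2) := C_anti (by omega)
  have Bm : ∀ {j : ℕ} (a : A) {l : A}, l ∈ C A j → B a l ∈ C A (j + 1) :=
    fun a _ hl => br_mem a hl
  have Bm' : ∀ {j : ℕ} (a : A) {l : A}, l ∈ C A j → B l a ∈ C A (j + 1) :=
    fun a _ hl => br_mem' a hl
  -- R1
  have R1 : ∀ (a b c : A) {j : ℕ} {l : A}, n + 2 ≤ j + 2 → l ∈ C A j →
      B (a * B b l) c + B (b * B a l) c ∈ C A (n + 2) := by
    intro a b c j l hj hl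
    have h1 : B (B (a * b) l) c ∈ C A (n + 2) :=
      C_anti hj (Bm' (j := j + 1) c (Bm (a * b) hl))
    have h2 : B (B (B a l) b) c ∈ C A (n + 2) :=
      C_anti (by omega) (Bm' (j := j + 2) c (Bm' b (Bm a hl)))
    have := sub_mem h1 h2
    convert this using 1
    simp only [hB]
    noncomm_ring
  -- R4 combined
  have key : ∀ (a b c d : A) {l : A}, l ∈ C A k →
      B (d * B b (B a l)) c ∈ C A (n + 2) := by
    intro a b c d l hl
    have hbl : b * l ∈ N A k := mul_mem_N b hl
    -- R4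
    have r4 : B (B a (B d (b * l))) c ∈ C A (n + 2) := by
      have h1 : B d (b * l) ∈ C A n := br_swap (H _ hbl d)
      exact Bm' c (Bm a h1)
    -- R5
    have r5 : B (B a (B d b) * l) c ∈ C A (n + 2) := by
      have hlc : l * c ∈ N A k := N_mul_right c (C_le_N k hl)
      have h1 : B (c * B a (B d b)) l ∈ C A (n + 2) := hk1 (Bm _ hl)
      have g1 : B b (l * c) ∈ C A n := br_swap (H _ hlc b)
      have g2 : B d (l * c) ∈ C A n := br_swap (H _ hlc d)
      have g3 : B a (l * c) ∈ C A n := br_swap (H _ hlc a)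
      have h2 : B a (B d (B b (l * c))) ∈ C A (n + 2) := Bm a (Bm d g1)
      have h3 : B a (B b (B d (l * c))) ∈ C A (n + 2) := Bm a (Bm b g2)
      have h4 : B d (B b (B a (l * c))) ∈ C A (n + 2) := Bm d (Bm b g3)
      have h5 : B b (B d (B a (l * c))) ∈ C A (n + 2) := Bm b (Bm d g3)
      have := sub_mem (sub_mem (sub_mem h2 h3) (sub_mem h4 h5)) h1
      -- [e3 l, c] = [e3, l c] - [c e3, l]
      convert this using 1
      simp only [hB]
      noncomm_ring
    -- R6, twice
    have r6 : B (B d b * B a l) c + B (a * B (B d b) l) c ∈ C A (n + 2) :=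
      R1 (B d b) a c (by omega) hl
    have r6' : B (B a b * B d l) c + B (d * B (B a b) l) c ∈ C A (n + 2) :=
      R1 (B a b) d c (by omega) hl
    -- R1 for pairs
    have r1 : B (a * B b (B d l)) c + B (b * B a (B d l)) c ∈ C A (n + 2) :=
      R1 a b c (by omega) (Bm d hl)
    have r1' : B (a * B d (B b l)) c + B (d * B a (B b l)) c ∈ C A (n + 2) :=
      R1 a d c (by omega) (Bm b hl)
    have := neg_mem (sub_mem (add_mem (sub_mem (add_mem r6 r6') (sub_mem r4 r5)) r1) r1')
    convert this using 1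
    simp only [hB]
    noncomm_ring
  intro m hm c
  refine br_N_of c ?_ hm
  intro d l hl
  have h : C A (k + 2) ≤ (C A (n + 2)).comap
      (((AddMonoidHom.mulRight c) - (AddMonoidHom.mulLeft c)).comp (AddMonoidHom.mulLeft d)) := by
    apply C_succ_induction
    intro b l1 hl1
    have h' : C A (k + 1) ≤ (C A (n + 2)).comap
      ((((AddMonoidHom.mulRight c) - (AddMonoidHom.mulLeft c)).comp (AddMonoidHom.mulLeft d)).comp
        ((AddMonoidHom.mulLeft b) - (AddMonoidHom.mulRight b))) := by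
      apply C_succ_induction
      intro a l0 hl0
      exact key a b c d hl0
    exact h' hl1
  exact h hl

/-- `[M_{2j+1}, A] ⊆ L_{2j}` for `j ≥ 1`. -/
lemma br_N_even (j : ℕ) : ∀ m ∈ N A (2 * (j + 1)), ∀ c : A, m * c - c * m ∈ C A (2 * j + 1) := by
  induction j with
  | zero =>
    intro m hm c
    exact C_succ_le 1 (br_N2 hm c)
  | succ j ih =>
    have h := step (k := 2 * j + 2) (n := 2 * j + 1) (by omega) ih
    exact h

end Pool.Agent.H78.LCS
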