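import Mathlib

/-!
# A cyclic sum which vanishes for derivations killing `[x,y]`
-/

namespace Pool.Agent.H78.LCS

open Finset

variable {A : Type*} [Ring A]

/-- `v 0 * v 1 * ... * v (n-1)` -/
def pr (v : ℕ → A) : ℕ → A
  | 0 => 1
  | (n + 1) => pr v n * v n

lemma pr_add (v : ℕ → A) (m n : ℕ) : pr v (m + n) = pr v m * pr (fun i => v (m + i)) n := by
  induction n with
  | zero => simp [pr]
  | succ n ih => rw [← add_assoc, pr, ih, pr, mul_assoc]

lemma pr_succ' (v : ℕ → A) (n : ℕ) : pr v (n + 1) = v 0 * pr (fun i => v (i + 1)) n := by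
  rw [add_comm n 1, pr_add]
  simp [pr, add_comm]

lemma pr_congr {v v' : ℕ → A} (h : ∀ i, v i = v' i) (n : ℕ) : pr v n = pr v' n := by
  rw [show v = v' from funext h]

lemma pr_const (a : A) (n : ℕ) : pr (fun _ => a) n = a ^ n := by
  induction n with
  | zero => simp [pr]
  | succ n ih => rw [pr, ih, pow_succ]

/-- the summand attached to a cyclic word -/
def inner (v : ℕ → A) (p : ℕ) (E : A →+ A) : A :=
  E (pr v p) + ∑ j ∈ range p,
    (E (pr (fun i => v (j + 1 + i)) (p - 1 - j)) * pr v j * v j
      - v j * (E (pr (fun i => v (j + 1 + i)) (p - 1 - j)) * pr v j))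

/-- telescoping for derivations -/
lemma inner_eq (v : ℕ → A) (p : ℕ) (hv : ∀ i, v (i + p) = v i) (E : A →+ A)
    (hE : ∀ a b, E (a * b) = E a * b + a * E b) :
    inner v p E = ∑ j ∈ range p, E (v j) * pr (fun i => v (j + (i + 1))) (p - 1) := by
  have hE1 : E 1 = 0 := by
    have := hE 1 1
    simpa using this
  -- R j
  let R : ℕ → A := fun j => E (pr (fun i => v (j + i)) (p - j)) * pr v j
  have hR : ∀ j ∈ range p, E (pr (fun i => v (j + 1 + i)) (p - 1 - j)) * pr v j * v j
      - v j * (E (pr (fun i => v (j + 1 + i)) (p - 1 - j)) * pr v j)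
      = (R (j + 1) - R j) + E (v j) * pr (fun i => v (j + (i + 1))) (p - 1) := by
    intro j hj
    have hj' : j < p := mem_range.1 hj
    obtain ⟨m, hm⟩ : ∃ m, p = j + 1 + m := ⟨p - (j + 1), by omega⟩
    have e1 : p - 1 - j = m := by omega
    have e2 : p - (j + 1) = m := by omega
    have e3 : p - j = m + 1 := by omega
    have e4 : p - 1 = m + j := by omega
    simp only [R]
    rw [e1, e2, e3, pr_succ' _ m, hE, e4, pr_add _ m j]
    have c1 : pr (fun i => v (j + (m + i + 1))) j = pr v j := by
      apply pr_congr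
      intro i
      rw [← hv i, hm]
      congr 1
      ring
    have c2 : pr (fun i => v (j + 1 + i)) m = pr (fun i => v (j + (i + 1))) m := by
      apply pr_congr
      intro i
      congr 1
      ring
    have c3 : pr v (j + 1) = pr v j * v j := rfl
    rw [c1, c2, c3]
    simp only [add_zero]
    noncomm_ring
  rw [inner, sum_congr rfl hR, sum_add_distrib, sum_range_sub]
  have hR0 : R 0 = E (pr v p) := by
    simp [R, pr]
  have hRp : R p = 0 := by
    simp [R, pr, hE1]
  rw [hR0, hRp]
  abel

/-- number of `true`s modulo `p` -/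
def kk {p : ℕ} [NeZero p] (w : ZMod p → Bool) : ZMod p := ∑ i, if w i then 1 else 0

/-- sum of the positions of the `true`s -/
def ss {p : ℕ} [NeZero p] (w : ZMod p → Bool) : ZMod p := ∑ i, if w i then i else 0

/-- the two blocks -/
def blk (x y : A) (c : Bool) : A := if c then x * y else -(y * x)

/-- the sequence of blocks given by a cyclic word -/
def bv {p : ℕ} (x y : A) (w : ZMod p → Bool) (i : ℕ) : A := blk x y (w i)

/-- the cyclic sum -/
def G (p : ℕ) [NeZero p] (x y : A) (E : A →+ A) : A :=
  (∑ w ∈ univ.filter (fun w : ZMod p → Bool => kk w ≠ 0 ∧ ss w = 0), inner (bv x y w) p E)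
    - (y * (E x * (y * x) ^ (p - 1)) - E x * (y * x) ^ (p - 1) * y)
    - (E y * (x * y) ^ (p - 1) * x - x * (E y * (x * y) ^ (p - 1)))

lemma sum_range_zmod {p : ℕ} [NeZero p] {M : Type*} [AddCommMonoid M] (f : ZMod p → M) :
    ∑ j ∈ range p, f (j : ZMod p) = ∑ j : ZMod p, f j := by
  obtain ⟨m, rfl⟩ : ∃ m, p = m + 1 := ⟨p - 1, by have := NeZero.pos p; omega⟩
  rw [Finset.sum_range]
  show ∑ i : Fin (m + 1), f ((i : ℕ) : ZMod (m + 1)) = ∑ j : Fin (m + 1), f j
  apply sum_congr rfl
  intro i _
  congr 1
  exact ZMod.natCast_zmod_val (n := m + 1) i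

/-- rotation -/
def rot {p : ℕ} (j : ZMod p) (w : ZMod p → Bool) : ZMod p → Bool := fun i => w (i + j)

lemma kk_rot {p : ℕ} [NeZero p] (j : ZMod p) (w : ZMod p → Bool) : kk (rot j w) = kk w := by
  unfold kk rot
  exact Fintype.sum_equiv (Equiv.addRight j) _ _ (fun i => rfl)

lemma ss_rot {p : ℕ} [NeZero p] (j : ZMod p) (w : ZMod p → Bool) :
    ss (rot j w) = ss w - j * kk w := by
  unfold ss rot kk
  rw [mul_sum, ← sum_sub_distrib]
  refine Fintype.sum_equiv (Equiv.addRight j) _ _ (fun i => ?_)
  simp only [Equiv.coe_addRight]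
  split_ifs <;> simp

lemma bv_rot {p : ℕ} (x y : A) (w : ZMod p → Bool) (j i : ℕ) :
    bv x y (rot (j : ZMod p) w) i = bv x y w (j + i) := by
  unfold bv rot
  congr 2
  push_cast
  ring

/-- the functional of a rooted word -/
def Phi {p : ℕ} (x y : A) (E : A →+ A) (w : ZMod p → Bool) : A :=
  E (bv x y w 0) * pr (fun i => bv x y w (i + 1)) (p - 1)

lemma inner_eq_Phi {p : ℕ} [NeZero p] (x y : A) (E : A →+ A)
    (hE : ∀ a b, E (a * b) = E a * b + a * E b) (w : ZMod p → Bool) :
    inner (bv x y w) p E = ∑ j : ZMod p, Phi x y E (rot j w) := by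
  rw [inner_eq _ _ _ _ hE, ← sum_range_zmod]
  · apply sum_congr rfl
    intro j _
    unfold Phi
    rw [bv_rot]
    congr 2
    funext i
    rw [bv_rot]
  · intro i
    simp [bv]

lemma rot_rot {p : ℕ} (i j : ZMod p) (w : ZMod p → Bool) : rot i (rot j w) = rot (i + j) w := by
  funext k
  simp only [rot]
  congr 1
  ring

/-- rotation as an equivalence -/
def rotEquiv {p : ℕ} (j : ZMod p) : (ZMod p → Bool) ≃ (ZMod p → Bool) where
  toFun := rot j
  invFun := rot (-j)
  left_inv := fun w => by rw [rot_rot]; funext i; simp [rot]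
  right_inv := fun w => by rw [rot_rot]; funext i; simp [rot]

lemma sum_filter_rot {p : ℕ} [Fact p.Prime] {M : Type*} [AddCommMonoid M]
    (F : (ZMod p → Bool) → M) :
    ∑ w ∈ univ.filter (fun w : ZMod p → Bool => kk w ≠ 0 ∧ ss w = 0), ∑ j : ZMod p, F (rot j w)
      = ∑ w ∈ univ.filter (fun w : ZMod p → Bool => kk w ≠ 0), F w := by
  rw [sum_comm]
  have h1 : ∀ j : ZMod p,
      ∑ w ∈ univ.filter (fun w : ZMod p → Bool => kk w ≠ 0 ∧ ss w = 0), F (rot j w)
      = ∑ w ∈ univ.filter (fun w : ZMod p → Bool => kk w ≠ 0),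
          if ss w + j * kk w = 0 then F w else 0 := by
    intro j
    rw [← Finset.sum_filter, Finset.filter_filter]
    refine Finset.sum_equiv (rotEquiv j) ?_ ?_
    · intro w
      simp only [mem_filter, mem_univ, true_and]
      show _ ↔ (kk (rot j w) ≠ 0 ∧ ss (rot j w) + j * kk (rot j w) = 0)
      rw [kk_rot, ss_rot]
      simp
    · intro w _
      rfl
  rw [sum_congr rfl (fun j _ => h1 j), sum_comm]
  apply sum_congr rfl
  intro w hw
  have hk : kk w ≠ 0 := (mem_filter.1 hw).2
  rw [Finset.sum_eq_single (-(ss w) / kk w)]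
  · rw [if_pos]
    field_simp
    ring
  · intro j _ hj
    rw [if_neg]
    intro h
    apply hj
    field_simp
    linear_combination h
  · intro h
    exact absurd (mem_univ _) h

lemma kk_eq_zero {p : ℕ} [Fact p.Prime] (w : ZMod p → Bool) (h : kk w = 0) :
    w = (fun _ => true) ∨ w = (fun _ => false) := by
  have h1 : kk w = ((univ.filter (fun i => w i = true)).card : ZMod p) := by
    unfold kk
    rw [Finset.card_filter]
    push_cast
    rfl
  rw [h1, ZMod.natCast_eq_zero_iff] at h
  have h2 : (univ.filter (fun i => w i = true)).card ≤ p := by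
    calc _ ≤ (univ : Finset (ZMod p)).card := card_le_card (filter_subset _ _)
      _ = p := by rw [card_univ, ZMod.card]
  rcases Nat.eq_zero_or_pos (univ.filter (fun i => w i = true)).card with h3 | h3
  · right
    funext i
    by_contra hi
    rw [Finset.card_eq_zero] at h3
    have : i ∈ univ.filter (fun i => w i = true) := by
      simp only [mem_filter, mem_univ, true_and]
      simpa using hi
    rw [h3] at this
    exact absurd this (notMem_empty _)
  · left
    have h4 : (univ.filter (fun i => w i = true)).card = p :=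
      le_antisymm h2 (Nat.le_of_dvd h3 h)
    have h5 : univ.filter (fun i => w i = true) = (univ : Finset (ZMod p)) := by
      apply Finset.eq_of_subset_of_card_le (filter_subset _ _)
      rw [h4, card_univ, ZMod.card]
    funext i
    have : i ∈ univ.filter (fun i => w i = true) := by rw [h5]; exact mem_univ i
    exact (mem_filter.1 this).2

lemma kk_true {p : ℕ} [Fact p.Prime] : kk (fun _ : ZMod p => true) = 0 := by
  simp [kk]

lemma kk_false {p : ℕ} [Fact p.Prime] : kk (fun _ : ZMod p => false) = 0 := by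
  simp [kk]

lemma sum_filter_kk {p : ℕ} [Fact p.Prime] {M : Type*} [AddCommGroup M]
    (F : (ZMod p → Bool) → M) :
    ∑ w ∈ univ.filter (fun w : ZMod p → Bool => kk w ≠ 0), F w
      = ∑ w, F w - F (fun _ => true) - F (fun _ => false) := by
  have h1 := Finset.sum_filter_add_sum_filter_not univ (fun w : ZMod p → Bool => kk w ≠ 0) F
  have h2 : univ.filter (fun w : ZMod p → Bool => ¬ (kk w ≠ 0))
      = {(fun _ => true), (fun _ => false)} := by
    ext w
    simp only [mem_filter, mem_univ, true_and, not_not, mem_insert, mem_singleton]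
    constructor
    · exact kk_eq_zero w
    · rintro (rfl | rfl)
      · exact kk_true
      · exact kk_false
  rw [h2, Finset.sum_pair] at h1
  · rw [← h1]
    abel
  · intro h
    have := congrFun h 0
    simp at this

/-- expansion of a power of a sum of two noncommuting elements -/
lemma sum_pr_fin (B : Bool → A) (n : ℕ) :
    ∑ w : Fin n → Bool, pr (fun i => if h : i < n then B (w ⟨i, h⟩) else 0) n
      = (B true + B false) ^ n := by
  induction n with
  | zero => simp [pr]
  | succ n ih =>
    rw [← (Fin.consEquiv (fun _ => Bool)).sum_comp, Fintype.sum_prod_type]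
    have h1 : ∀ (c : Bool) (w : Fin n → Bool),
        pr (fun i => if h : i < n + 1 then B ((Fin.consEquiv (fun _ => Bool)) (c, w) ⟨i, h⟩)
          else 0) (n + 1) = B c * pr (fun i => if h : i < n then B (w ⟨i, h⟩) else 0) n := by
      intro c w
      rw [pr_succ']
      congr 1
      apply pr_congr
      intro i
      by_cases h : i < n
      · have h' : i + 1 < n + 1 := by omega
        rw [dif_pos h, dif_pos h']
        rfl
      · have h' : ¬ (i + 1 < n + 1) := by omega
        rw [dif_neg h, dif_neg h']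
    simp only [h1, ← mul_sum, ih]
    rw [Fintype.sum_bool, pow_succ', add_mul]

lemma pr_congr' {v v' : ℕ → A} (n : ℕ) (h : ∀ i < n, v i = v' i) : pr v n = pr v' n := by
  induction n with
  | zero => rfl
  | succ n ih => rw [pr, pr, ih (fun i hi => h i (by omega)), h n (by omega)]

lemma sum_Phi {p : ℕ} [Fact p.Prime] (x y : A) (E : A →+ A) :
    ∑ w : ZMod p → Bool, Phi x y E w = E (x * y - y * x) * (x * y - y * x) ^ (p - 1) := by
  obtain ⟨m, rfl⟩ : ∃ m, p = m + 1 := ⟨p - 1, by have := NeZero.pos p; omega⟩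
  have e : ∀ w : Fin (m + 1) → Bool, Phi (p := m + 1) x y E w
      = E (blk x y (w 0)) * pr (fun i => if h : i < m then blk x y (w ⟨i + 1, by omega⟩) else 0) m := by
    intro w
    unfold Phi bv
    have e0 : w ((0 : ℕ) : ZMod (m + 1)) = w 0 := congrArg w (Nat.cast_zero (R := ZMod (m + 1)))
    have e1 : pr (fun i => blk x y (w ((i + 1 : ℕ) : ZMod (m + 1)))) (m + 1 - 1)
        = pr (fun i => if h : i < m then blk x y (w ⟨i + 1, by omega⟩) else 0) m := by
      apply pr_congr'
      intro i hi
      have hi' : i < m := hi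
      rw [dif_pos hi']
      congr 2
      apply ZMod.val_injective (m + 1)
      rw [ZMod.val_natCast, Nat.mod_eq_of_lt (by omega)]
      rfl
    rw [e1]
    congr 3
  show ∑ w : Fin (m + 1) → Bool, Phi (p := m + 1) x y E w = _
  rw [sum_congr rfl (fun w _ => e w), ← (Fin.consEquiv (fun _ => Bool)).sum_comp,
    Fintype.sum_prod_type]
  have h1 : ∀ (c : Bool) (w : Fin m → Bool),
      E (blk x y ((Fin.consEquiv (fun _ => Bool)) (c, w) 0)) *
        pr (fun i => if h : i < m then
          blk x y ((Fin.consEquiv (fun _ => Bool)) (c, w) ⟨i + 1, by omega⟩) else 0) m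
      = E (blk x y c) * pr (fun i => if h : i < m then blk x y (w ⟨i, h⟩) else 0) m := by
    intro c w
    rfl
  simp only [h1, ← mul_sum, sum_pr_fin]
  rw [Fintype.sum_bool, ← add_mul, ← map_add]
  have h2 : blk x y true + blk x y false = x * y - y * x := by
    simp [blk, sub_eq_add_neg]
  rw [h2]
  rfl

lemma mul_pow_comm (a b : A) (n : ℕ) : (a * b) ^ n * a = a * (b * a) ^ n := by
  induction n with
  | zero => simp
  | succ n ih => rw [pow_succ', mul_assoc, ih, pow_succ']; noncomm_ring

/-- The cyclic sum vanishes for derivations killing `[x,y]`. -/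
theorem G_eq_zero {p : ℕ} [Fact p.Prime] (hp : Odd p) (x y : A) (E : A →+ A)
    (hE : ∀ a b, E (a * b) = E a * b + a * E b) (hu : E (x * y - y * x) = 0) :
    G p x y E = 0 := by
  unfold G
  rw [sum_congr rfl (fun w _ => inner_eq_Phi x y E hE w), sum_filter_rot, sum_filter_kk, sum_Phi,
    hu, zero_mul, zero_sub]
  have h1 : Phi (p := p) x y E (fun _ => true) = E (x * y) * (x * y) ^ (p - 1) := by
    unfold Phi bv blk
    rw [pr_const]
    simp
  have h2 : Phi (p := p) x y E (fun _ => false) = -(E (y * x) * (y * x) ^ (p - 1)) := by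
    unfold Phi bv blk
    rw [pr_const]
    have : Even (p - 1) := by
      obtain ⟨k, hk⟩ := hp
      exact ⟨k, by omega⟩
    simp [this.neg_pow]
  rw [h1, h2, hE, hE]
  have e1 := mul_pow_comm x y (p - 1)
  have e2 := mul_pow_comm y x (p - 1)
  generalize (x * y) ^ (p - 1) = P at *
  generalize (y * x) ^ (p - 1) = Q at *
  have e3 : E x * Q * y = E x * (y * P) := by rw [mul_assoc, e2]
  have e4 : E y * P * x = E y * (x * Q) := by rw [mul_assoc, e1]
  rw [e3, e4]
  noncomm_ring

end Pool.Agent.H78.LCS
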