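import Pool.Agent.H78.LCS.Lam

/-!
# Assembly
-/

namespace Pool.Agent.H78.LCS

open Finset

section functoriality

variable {A B : Type*} [Ring A] [Ring B] (φ : A →+* B)

lemma pr_map (v : ℕ → A) (n : ℕ) : φ (pr v n) = pr (fun i => φ (v i)) n := by
  induction n with
  | zero => simp [pr]
  | succ n ih => rw [pr, pr, map_mul, ih]

lemma inner_map (v : ℕ → A) (p : ℕ) (E : A →+ A) (F : B →+ B) (h : ∀ a, φ (E a) = F (φ a)) :
    φ (inner v p E) = inner (fun i => φ (v i)) p F := by
  unfold inner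
  simp only [map_add, map_sum, map_sub, map_mul, h, pr_map]

lemma bv_map {p : ℕ} (x y : A) (w : ZMod p → Bool) :
    (fun i => φ (bv x y w i)) = bv (φ x) (φ y) w := by
  funext i
  unfold bv blk
  split_ifs <;> simp

lemma G_map (p : ℕ) [NeZero p] (x y : A) (E : A →+ A) (F : B →+ B)
    (h : ∀ a, φ (E a) = F (φ a)) : φ (G p x y E) = G p (φ x) (φ y) F := by
  unfold G
  simp only [map_sum, map_sub, map_mul, h, inner_map φ _ p E F h, bv_map, map_pow]

lemma tt_map (p : ℕ) [NeZero p] (x y : A) : φ (tt p x y) = tt p (φ x) (φ y) := by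
  unfold tt
  apply G_map
  intro a
  rw [psi_map, map_sub, map_mul, map_mul]

lemma C_map (k : ℕ) {a : A} (ha : a ∈ C A k) : φ a ∈ C B k := by
  induction k generalizing a with
  | zero => exact mem_C_zero _
  | succ k ih =>
    have : C A (k + 1) ≤ (C B (k + 1)).comap φ.toAddMonoidHom := by
      apply C_succ_induction
      intro b l hl
      show φ (b * l - l * b) ∈ C B (k + 1)
      rw [map_sub, map_mul, map_mul]
      exact br_mem _ (ih hl)
    exact this ha

end functoriality

/-- the homomorphism to the monoid ring -/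
noncomputable def toAA (n : ℕ) : FreeAlgebra ℤ (Fin n) →ₐ[ℤ] AA :=
  FreeAlgebra.lift ℤ (fun i : Fin n => if (i : ℕ) = 0 then gx else if (i : ℕ) = 1 then gy else 0)

/-- The main statement, in terms of `C`. -/
theorem main (p : ℕ) (hp : p.Prime) (h5 : 5 ≤ p) (n : ℕ) (hn : 2 ≤ n) :
    ∃ k : ℕ, 2 ≤ k ∧ k ≤ p + 2 ∧ ∃ t : FreeAlgebra ℤ (Fin n),
      t ∈ C (FreeAlgebra ℤ (Fin n)) k ∧ t ∉ C (FreeAlgebra ℤ (Fin n)) (k + 1) ∧
      p • t ∈ C (FreeAlgebra ℤ (Fin n)) (k + 1) := by
  have : Fact p.Prime := ⟨hp⟩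
  let x : FreeAlgebra ℤ (Fin n) := FreeAlgebra.ι ℤ ⟨0, by omega⟩
  let y : FreeAlgebra ℤ (Fin n) := FreeAlgebra.ι ℤ ⟨1, by omega⟩
  have hodd : Odd p := hp.odd_of_ne_two (by omega)
  have h1 := tt_mem p x y
  have h2 := p_tt_mem p hodd x y
  have h3 : tt p x y ∉ C (FreeAlgebra ℤ (Fin n)) (p + 3) := by
    intro h
    have := C_map (toAA n).toRingHom (p + 3) h
    rw [tt_map] at this
    have ex : (toAA n).toRingHom x = gx := by
      show toAA n (FreeAlgebra.ι ℤ ⟨0, by omega⟩) = gx
      rw [toAA, FreeAlgebra.lift_ι_apply]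
      simp
    have ey : (toAA n).toRingHom y = gy := by
      show toAA n (FreeAlgebra.ι ℤ ⟨1, by omega⟩) = gy
      rw [toAA, FreeAlgebra.lift_ι_apply]
      simp
    rw [ex, ey] at this
    exact tt_not_mem p (by omega) this
  by_contra hcon
  push Not at hcon
  apply h3
  have key : ∀ j : ℕ, j ≤ p + 1 → tt p x y ∈ C (FreeAlgebra ℤ (Fin n)) (j + 2) := by
    intro j
    induction j with
    | zero => intro _; exact h1
    | succ j ih =>
      intro hj
      by_contra hne
      exact hcon (j + 2) (by omega) (by omega) (tt p x y) (ih (by omega)) hne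
        (C_anti (by omega) h2)
  exact key (p + 1) le_rfl

end Pool.Agent.H78.LCS
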