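import Pool.Agent.H78.LCS.Rep

/-!
# The functional `λ`
-/

namespace Pool.Agent.H78.LCS

open Finset Polynomial

/-- the free monoid -/
abbrev WW : Type := FreeMonoid (Fin 2)

/-- the free ring on two generators, as a monoid ring -/
abbrev AA : Type := MonoidAlgebra ℤ WW

/-- the base ring `F_p[s][t]` -/
abbrev KK (p : ℕ) : Type := (ZMod p)[X][X]

variable (p : ℕ)

/-- the variable `t` -/
noncomputable def tv : KK p := Polynomial.X

/-- the variable `s` -/
noncomputable def sv : KK p := Polynomial.C Polynomial.X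

/-- constants -/
noncomputable def kap : ZMod p →+* KK p := Polynomial.C.comp Polynomial.C

/-- the coefficient of `s^{2p} t^{2p}` -/
noncomputable def cf : KK p →+ ZMod p where
  toFun f := (f.coeff (2 * p)).coeff (2 * p)
  map_zero' := by simp
  map_add' := by intro f g; simp

lemma cf_apply (f : KK p) : cf p f = (f.coeff (2 * p)).coeff (2 * p) := rfl

lemma cf_mono (a b : ℕ) (c : ZMod p) :
    cf p (sv p ^ a * tv p ^ b * kap p c) = if a = 2 * p ∧ b = 2 * p then c else 0 := by
  have e : sv p ^ a * tv p ^ b * kap p c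
      = Polynomial.C (Polynomial.C c * Polynomial.X ^ a) * Polynomial.X ^ b := by
    simp only [sv, tv, kap, RingHom.comp_apply, map_mul, map_pow]
    ring
  rw [cf_apply, e, Polynomial.coeff_C_mul_X_pow]
  by_cases hb : b = 2 * p
  · rw [if_pos hb.symm, Polynomial.coeff_C_mul_X_pow]
    by_cases ha : a = 2 * p
    · rw [if_pos ha.symm, if_pos ⟨ha, hb⟩]
    · rw [if_neg (fun h => ha h.symm), if_neg (fun h => ha h.1)]
  · rw [if_neg (fun h => hb h.symm), if_neg (fun h => hb h.2)]
    simp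

lemma cf_dvd {f : KK p} (h : tv p ^ (2 * p + 1) ∣ f) : cf p f = 0 := by
  rw [cf_apply]
  have := (Polynomial.X_pow_dvd_iff (n := 2 * p + 1)).1 h (2 * p) (by omega)
  rw [this]
  simp

variable [Fact p.Prime]

lemma tv_ne_zero : tv p ≠ 0 := Polynomial.X_ne_zero

lemma natCast_ne_zero {n : ℕ} (h0 : 0 < n) (hn : n < p) : ((n : ℕ) : KK p) ≠ 0 := by
  intro h
  rw [← Polynomial.C_eq_natCast, Polynomial.C_eq_zero, ← Polynomial.C_eq_natCast,
    Polynomial.C_eq_zero, ZMod.natCast_eq_zero_iff] at h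
  exact absurd (Nat.le_of_dvd h0 h) (by omega)

/-- image of `x` -/
noncomputable def MX : Matrix (ZMod p) (ZMod p) (KK p) := sv p • (Qm p (KK p)) ^ 2

/-- image of `y` -/
noncomputable def MY : Matrix (ZMod p) (ZMod p) (KK p) := tv p • Dm (kap p)

/-- the representation on words -/
noncomputable def rhoW : WW →* Matrix (ZMod p) (ZMod p) (KK p) :=
  FreeMonoid.lift (fun i : Fin 2 => if i = 0 then MX p else MY p)

/-- the representation -/
noncomputable def rho : AA →ₐ[ℤ] Matrix (ZMod p) (ZMod p) (KK p) :=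
  MonoidAlgebra.lift ℤ (Matrix (ZMod p) (ZMod p) (KK p)) WW (rhoW p)

lemma rho_of (w : WW) : rho p (MonoidAlgebra.of ℤ WW w) = rhoW p w := by
  rw [rho, MonoidAlgebra.lift_of]

lemma rhoW_mem (w : WW) : rhoW p w ∈ BB (Dm (kap p)) (Qm p (KK p)) (tv p) := by
  induction w using FreeMonoid.inductionOn' with
  | one => rw [map_one]; exact one_mem _
  | of_mul i w ih =>
    rw [map_mul]
    refine mul_mem ?_ ih
    rw [rhoW, FreeMonoid.lift_eval_of]
    split_ifs
    · exact X_mem _ _
    · exact Y_mem _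

lemma AA_induction {P : AA → Prop} (h1 : ∀ w : WW, P (MonoidAlgebra.of ℤ WW w))
    (hadd : ∀ f g, P f → P g → P (f + g)) (hsmul : ∀ (n : ℤ) f, P f → P (n • f)) (f : AA) : P f :=
  MonoidAlgebra.induction_on f h1 hadd hsmul

lemma rho_mem (a : AA) : rho p a ∈ BB (Dm (kap p)) (Qm p (KK p)) (tv p) := by
  refine AA_induction (P := fun a => rho p a ∈ BB (Dm (kap p)) (Qm p (KK p)) (tv p)) ?_ ?_ ?_ a
  · intro w
    rw [rho_of]
    exact rhoW_mem p w
  · intro f g hf hg
    rw [map_add]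
    exact add_mem hf hg
  · intro n f hf
    rw [map_zsmul]
    exact zsmul_mem hf n

/-- the functional `T` -/
noncomputable def TT : AA →+ ZMod p :=
  (cf p).comp ((Matrix.traceAddMonoidHom (ZMod p) (KK p)).comp (rho p).toRingHom.toAddMonoidHom)

lemma TT_apply (f : AA) : TT p f = cf p (Matrix.trace (rho p f)) := rfl

lemma TT_comm (f g : AA) : TT p (f * g) = TT p (g * f) := by
  rw [TT_apply, TT_apply, map_mul, map_mul, Matrix.trace_mul_comm]

/-- scaling of words -/
lemma rhoW_eq (w : WW) : ∃ M0 : Matrix (ZMod p) (ZMod p) (ZMod p),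
    rhoW p w = (sv p ^ dx w * tv p ^ dy w) • M0.map (kap p) := by
  induction w using FreeMonoid.inductionOn' with
  | one =>
    refine ⟨1, ?_⟩
    rw [map_one]
    simp [dx, dy]
  | of_mul i w ih =>
    obtain ⟨M0, h⟩ := ih
    by_cases hi : i = 0
    · refine ⟨Qm p (ZMod p) ^ 2 * M0, ?_⟩
      rw [map_mul, h, rhoW, FreeMonoid.lift_eval_of, if_pos hi, MX, map_mul', map_pow', Qm_map,
        smul_mul_smul_comm]
      congr 1
      rw [dx_mul, dy_mul]
      have e1 : dx (FreeMonoid.of i) = 1 := by simp [dx, hi]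
      have e2 : dy (FreeMonoid.of i) = 0 := by simp [dy, hi]
      rw [e1, e2]
      ring
    · refine ⟨Dm (RingHom.id (ZMod p)) * M0, ?_⟩
      rw [map_mul, h, rhoW, FreeMonoid.lift_eval_of, if_neg hi, MY, map_mul', Dm_map,
        smul_mul_smul_comm]
      congr 1
      rw [dx_mul, dy_mul]
      have hi' : i = 1 := by
        have := i.isLt
        apply Fin.ext
        have h0 : (i : ℕ) ≠ 0 := fun h => hi (Fin.ext h)
        show (i : ℕ) = 1
        omega
      have e1 : dx (FreeMonoid.of i) = 0 := by simp [dx, hi']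
      have e2 : dy (FreeMonoid.of i) = 1 := by simp [dy, hi']
      rw [e1, e2]
      ring

lemma TT_word (w : WW) (h : ¬ (dx w = 2 * p ∧ dy w = 2 * p)) :
    TT p (MonoidAlgebra.of ℤ WW w) = 0 := by
  obtain ⟨M0, h0⟩ := rhoW_eq p w
  have h1 : Matrix.trace (M0.map (kap p)) = kap p (Matrix.trace M0) := by
    simp [Matrix.trace, Matrix.diag]
  rw [TT_apply, rho_of, h0, Matrix.trace_smul, smul_eq_mul, h1, cf_mono, if_neg h]

/-- `T (a l) = 0` for `l ∈ L_{p+3}` -/
lemma TT_mul_C (a l : AA) (hl : l ∈ C AA (p + 2)) : TT p (a * l) = 0 := by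
  have hp : p.Prime := Fact.out
  rw [TT_apply]
  apply cf_dvd
  have h := trace_mul_C (weylPair (kap p)) (tv p) (tv_ne_zero p) p
    (fun n h0 hn => natCast_ne_zero p h0 hn)
    (Matrix.traceLinearMap (ZMod p) (KK p) (KK p)) (fun a b => Matrix.trace_mul_comm a b)
    (rho p).toRingHom (rho_mem p) (p + 2) a l hl
  have e : p + 2 + (p - 1) = 2 * p + 1 := by have := hp.pos; omega
  rw [e] at h
  exact h

/-- the functional `λ` -/
noncomputable def lam : AA →+ ZMod p :=
  MonoidAlgebra.liftNC (Int.castAddHom (ZMod p))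
    (fun w => ((inv w / p : ℕ) : ZMod p) * TT p (MonoidAlgebra.of ℤ WW w))

lemma lam_of (w : WW) : lam p (MonoidAlgebra.of ℤ WW w)
    = ((inv w / p : ℕ) : ZMod p) * TT p (MonoidAlgebra.of ℤ WW w) := by
  rw [lam, MonoidAlgebra.of_apply, MonoidAlgebra.liftNC_single]
  simp

lemma lam_words (v w : WW) :
    lam p (MonoidAlgebra.of ℤ WW v * MonoidAlgebra.of ℤ WW w
      - MonoidAlgebra.of ℤ WW w * MonoidAlgebra.of ℤ WW v)
    = 2 * ((dx v : ZMod p) - (dy v : ZMod p)) *
      TT p (MonoidAlgebra.of ℤ WW v * MonoidAlgebra.of ℤ WW w) := by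
  have hp : p.Prime := Fact.out
  have hc := TT_comm p (MonoidAlgebra.of ℤ WW v) (MonoidAlgebra.of ℤ WW w)
  rw [← map_mul, ← map_mul] at hc
  rw [map_sub, ← map_mul, ← map_mul, lam_of, lam_of, ← hc]
  by_cases h : dx (v * w) = 2 * p ∧ dy (v * w) = 2 * p
  · rw [← sub_mul]
    congr 1
    obtain ⟨h1, h2⟩ := h
    rw [dx_mul] at h1
    rw [dy_mul] at h2
    have e : inv (v * w) + p * (2 * dy v) = inv (w * v) + p * (2 * dx v) := by
      rw [inv_mul, inv_mul]
      have h1' : p * (2 * dy v) = (dx v + dx w) * dy v := by rw [h1]; ring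
      have h2' : p * (2 * dx v) = (dy v + dy w) * dx v := by rw [h2]; ring
      rw [h1', h2']
      ring
    have e2 : inv (v * w) / p + 2 * dy v = inv (w * v) / p + 2 * dx v := by
      rw [← Nat.add_mul_div_left _ _ hp.pos, ← Nat.add_mul_div_left _ _ hp.pos, e]
    have e3 : ((inv (v * w) / p : ℕ) : ZMod p) + 2 * (dy v : ZMod p)
        = ((inv (w * v) / p : ℕ) : ZMod p) + 2 * (dx v : ZMod p) := by
      exact_mod_cast congrArg (Nat.cast : ℕ → ZMod p) e2
    linear_combination e3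
  · rw [TT_word p _ h]
    simp

lemma lam_comm (v : WW) (f : AA) :
    lam p (MonoidAlgebra.of ℤ WW v * f - f * MonoidAlgebra.of ℤ WW v)
    = 2 * ((dx v : ZMod p) - (dy v : ZMod p)) * TT p (MonoidAlgebra.of ℤ WW v * f) := by
  refine AA_induction (P := fun f => lam p (MonoidAlgebra.of ℤ WW v * f - f * MonoidAlgebra.of ℤ WW v)
    = 2 * ((dx v : ZMod p) - (dy v : ZMod p)) * TT p (MonoidAlgebra.of ℤ WW v * f)) ?_ ?_ ?_ f
  · intro w
    exact lam_words p v w
  · intro f g hf hg
    have : MonoidAlgebra.of ℤ WW v * (f + g) - (f + g) * MonoidAlgebra.of ℤ WW v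
        = (MonoidAlgebra.of ℤ WW v * f - f * MonoidAlgebra.of ℤ WW v)
          + (MonoidAlgebra.of ℤ WW v * g - g * MonoidAlgebra.of ℤ WW v) := by
      noncomm_ring
    rw [this, map_add, hf, hg, mul_add (MonoidAlgebra.of ℤ WW v), map_add]
    ring
  · intro n f hf
    rw [mul_smul_comm, smul_mul_assoc, ← smul_sub, map_zsmul, hf, map_zsmul]
    simp only [zsmul_eq_mul]
    ring

/-- `λ` vanishes on `L_{p+4}` -/
theorem lam_C (l : AA) (hl : l ∈ C AA (p + 3)) : lam p l = 0 := by
  have : C AA (p + 2 + 1) ≤ (lam p).ker := by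
    apply C_succ_induction
    intro a l hl
    rw [AddMonoidHom.mem_ker]
    refine AA_induction (P := fun a => lam p (a * l - l * a) = 0) ?_ ?_ ?_ a
    · intro w
      rw [lam_comm, TT_mul_C p _ _ hl, mul_zero]
    · intro f g hf hg
      have : (f + g) * l - l * (f + g) = (f * l - l * f) + (g * l - l * g) := by noncomm_ring
      rw [this, map_add, hf, hg, add_zero]
    · intro n f hf
      rw [mul_smul_comm, smul_mul_assoc, ← smul_sub, map_zsmul, hf, smul_zero]
  exact this hl

/-- the generator `x` -/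
noncomputable def gx : AA := MonoidAlgebra.of ℤ WW (FreeMonoid.of 0)

/-- the generator `y` -/
noncomputable def gy : AA := MonoidAlgebra.of ℤ WW (FreeMonoid.of 1)

lemma lam_x (f : AA) : lam p (gx * f - f * gx) = 2 * TT p (gx * f) := by
  rw [gx, lam_comm]
  have e1 : dx (FreeMonoid.of (0 : Fin 2)) = 1 := by simp [dx]
  have e2 : dy (FreeMonoid.of (0 : Fin 2)) = 0 := by simp [dy]
  rw [e1, e2]
  simp

lemma lam_y (f : AA) : lam p (gy * f - f * gy) = -2 * TT p (gy * f) := by
  rw [gy, lam_comm]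
  have e1 : dx (FreeMonoid.of (1 : Fin 2)) = 0 := by simp [dx]
  have e2 : dy (FreeMonoid.of (1 : Fin 2)) = 1 := by simp [dy]
  rw [e1, e2]
  simp

lemma lam_xy (f : AA) : lam p ((gx * gy) * f - f * (gx * gy)) = 0 := by
  rw [gx, gy, ← map_mul, lam_comm]
  have e1 : dx (FreeMonoid.of (0 : Fin 2) * FreeMonoid.of (1 : Fin 2)) = 1 := by
    rw [dx_mul]; simp [dx]
  have e2 : dy (FreeMonoid.of (0 : Fin 2) * FreeMonoid.of (1 : Fin 2)) = 1 := by
    rw [dy_mul]; simp [dy]
  rw [e1, e2]
  simp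

lemma lam_yx (f : AA) : lam p ((gy * gx) * f - f * (gy * gx)) = 0 := by
  rw [gx, gy, ← map_mul, lam_comm]
  have e1 : dx (FreeMonoid.of (1 : Fin 2) * FreeMonoid.of (0 : Fin 2)) = 1 := by
    rw [dx_mul]; simp [dx]
  have e2 : dy (FreeMonoid.of (1 : Fin 2) * FreeMonoid.of (0 : Fin 2)) = 1 := by
    rw [dy_mul]; simp [dy]
  rw [e1, e2]
  simp

lemma lam_u (f : AA) :
    lam p ((gx * gy - gy * gx) * f - f * (gx * gy - gy * gx)) = 0 := by
  have : (gx * gy - gy * gx) * f - f * (gx * gy - gy * gx)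
      = ((gx * gy) * f - f * (gx * gy)) - ((gy * gx) * f - f * (gy * gx)) := by noncomm_ring
  rw [this, map_sub, lam_xy, lam_yx, sub_zero]

lemma lam_psi (f : AA) : lam p (psi p (gx * gy - gy * gx) f) = 0 := by
  rw [psi_apply]
  exact lam_u p _

lemma lam_blk (c : Bool) (f : AA) : lam p (f * blk gx gy c - blk gx gy c * f) = 0 := by
  have h1 := lam_xy p f
  have h2 := lam_yx p f
  cases c
  · have : f * blk gx gy false - blk gx gy false * f = (gy * gx) * f - f * (gy * gx) := by
      simp only [blk, Bool.false_eq_true, if_false]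
      noncomm_ring
    rw [this, h2]
  · have : f * blk gx gy true - blk gx gy true * f = -((gx * gy) * f - f * (gx * gy)) := by
      simp only [blk, if_true]
      noncomm_ring
    rw [this, map_neg, h1, neg_zero]

lemma rho_gx : rho p gx = sv p • (Qm p (KK p)) ^ 2 := by
  rw [gx, rho_of, rhoW, FreeMonoid.lift_eval_of, if_pos rfl, MX]

lemma rho_gy : rho p gy = tv p • Dm (kap p) := by
  rw [gy, rho_of, rhoW, FreeMonoid.lift_eval_of, if_neg (by decide), MY]

lemma TT_zero : TT p (gy * (psi p (gx * gy - gy * gx) gx * (gy * gx) ^ (p - 1))) = 0 := by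
  rw [TT_apply, map_mul, map_mul]
  have h : rho p (psi p (gx * gy - gy * gx) gx) = 0 := by
    have := psi_map (rho p).toRingHom p (gx * gy - gy * gx) gx
    have e : rho p (psi p (gx * gy - gy * gx) gx)
        = psi p (rho p (gx * gy - gy * gx)) (rho p gx) := this
    rw [e, map_sub, map_mul, map_mul, rho_gx, rho_gy]
    exact zero_value (weylPair (kap p)) (sv p) (tv p)
  rw [h, zero_mul, mul_zero, Matrix.trace_zero, map_zero]

lemma TT_value : TT p (gx * (psi p (gx * gy - gy * gx) gy * (gx * gy) ^ (p - 1)))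
    = 2 * (-2) ^ (p - 1) * ((p - 1).factorial : ZMod p) := by
  have hp : p.Prime := Fact.out
  have h : rho p (psi p (gx * gy - gy * gx) gy)
      = psi p (rho p (gx * gy - gy * gx)) (rho p gy) :=
    psi_map (rho p).toRingHom p (gx * gy - gy * gx) gy
  have e : rho p (gx * (psi p (gx * gy - gy * gx) gy * (gx * gy) ^ (p - 1)))
      = (2 * (-2) ^ (p - 1) * sv p ^ (2 * p) * tv p ^ (2 * p)) •
        (Qm p (KK p) ^ (p + 1) * (Qm p (KK p) ^ 2 * Dm (kap p)) ^ (p - 1)) := by
    rw [← main_value (weylPair (kap p)) (sv p) (tv p) hp.one_lt, map_mul, map_mul, h, map_pow,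
      map_sub, map_mul, map_mul, rho_gx, rho_gy, mul_assoc]
  rw [TT_apply, e, Matrix.trace_smul, trace_value, smul_eq_mul]
  have e2 : (2 * (-2) ^ (p - 1) * sv p ^ (2 * p) * tv p ^ (2 * p)) *
      kap p ((p - 1).factorial : ZMod p)
      = sv p ^ (2 * p) * tv p ^ (2 * p) *
        kap p (2 * (-2) ^ (p - 1) * ((p - 1).factorial : ZMod p)) := by
    have : kap p (2 * (-2) ^ (p - 1) * ((p - 1).factorial : ZMod p))
        = 2 * (-2) ^ (p - 1) * kap p ((p - 1).factorial : ZMod p) := by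
      rw [map_mul, map_mul, map_pow, map_neg, map_ofNat]
    rw [this]
    ring
  rw [e2, cf_mono, if_pos ⟨rfl, rfl⟩]

theorem lam_tt : lam p (tt p gx gy) = 4 * (-2) ^ (p - 1) * ((p - 1).factorial : ZMod p) := by
  unfold tt G
  rw [map_sub, map_sub, map_sum]
  have h1 : ∀ w ∈ univ.filter (fun w : ZMod p → Bool => kk w ≠ 0 ∧ ss w = 0),
      lam p (inner (bv gx gy w) p (psi p (gx * gy - gy * gx))) = 0 := by
    intro w _
    unfold inner
    rw [map_add, lam_psi, map_sum, zero_add]
    apply sum_eq_zero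
    intro j _
    exact lam_blk p _ _
  rw [sum_eq_zero h1]
  have h2 := lam_y p (psi p (gx * gy - gy * gx) gx * (gy * gx) ^ (p - 1))
  rw [TT_zero, mul_zero] at h2
  rw [h2]
  have h3 := lam_x p (psi p (gx * gy - gy * gx) gy * (gx * gy) ^ (p - 1))
  rw [TT_value, map_sub] at h3
  rw [map_sub]
  linear_combination h3

theorem tt_not_mem (hp2 : p ≠ 2) : tt p gx gy ∉ C AA (p + 3) := by
  have hp : p.Prime := Fact.out
  intro h
  have h1 := lam_C p _ h
  rw [lam_tt] at h1
  have h2 : (2 : ZMod p) ≠ 0 := by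
    intro h
    have : ((2 : ℕ) : ZMod p) = 0 := by exact_mod_cast h
    rw [ZMod.natCast_eq_zero_iff] at this
    exact hp2 ((Nat.prime_dvd_prime_iff_eq hp Nat.prime_two).1 this)
  have h4 : (4 : ZMod p) ≠ 0 := by
    have : (4 : ZMod p) = 2 * 2 := by norm_num
    rw [this]
    exact mul_ne_zero h2 h2
  have hf : ((p - 1).factorial : ZMod p) ≠ 0 := by
    intro h
    rw [ZMod.natCast_eq_zero_iff, hp.dvd_factorial] at h
    have := hp.pos
    omega
  exact (mul_ne_zero (mul_ne_zero h4 (pow_ne_zero _ (neg_ne_zero.2 h2))) hf) h1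

end Pool.Agent.H78.LCS
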