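import Pool.Agent.H78.LCS.Basic
import Pool.Agent.H78.LCS.Cyc

/-!
# The divided operator `ψ` and the element `t`
-/

namespace Pool.Agent.H78.LCS

open Finset

variable {A : Type*} [Ring A]

/-- `f ↦ [u, f]` -/
def ad (u : A) : A →+ A := AddMonoidHom.mulLeft u - AddMonoidHom.mulRight u

@[simp] lemma ad_apply (u f : A) : ad u f = u * f - f * u := rfl

/-- `f ↦ [u, [u, ... [u, f]]]` -/
def adn (u : A) : ℕ → A →+ A
  | 0 => AddMonoidHom.id A
  | (k + 1) => (ad u).comp (adn u k)

lemma adn_zero (u f : A) : adn u 0 f = f := rfl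

lemma adn_succ (u f : A) (k : ℕ) : adn u (k + 1) f = u * adn u k f - adn u k f * u := rfl

/-- `g f = ∑_{k=1}^{p-1} (C(p,k)/p) ad_u^{k-1}(f) u^{p-k}` -/
def gg (p : ℕ) (u : A) : A →+ A :=
  ∑ k ∈ range (p - 1), (p.choose (k + 1) / p) •
    ((AddMonoidHom.mulRight (u ^ (p - (k + 1)))).comp (adn u k))

lemma gg_apply (p : ℕ) (u f : A) : gg p u f = ∑ k ∈ range (p - 1), (p.choose (k + 1) / p) •
    (adn u k f * u ^ (p - (k + 1))) := by
  simp [gg]

/-- `ψ f = [u, g f] = ∑_{k=1}^{p-1} (C(p,k)/p) ad_u^{k}(f) u^{p-k}` -/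
def psi (p : ℕ) (u : A) : A →+ A := (ad u).comp (gg p u)

lemma psi_apply (p : ℕ) (u f : A) : psi p u f = u * gg p u f - gg p u f * u := rfl

lemma psi_apply' (p : ℕ) (u f : A) : psi p u f = ∑ k ∈ range (p - 1), (p.choose (k + 1) / p) •
    (adn u (k + 1) f * u ^ (p - (k + 1))) := by
  rw [psi_apply, gg_apply, mul_sum, sum_mul, ← sum_sub_distrib]
  apply sum_congr rfl
  intro k _
  rw [adn_succ, sub_mul, mul_smul_comm, smul_mul_assoc, ← smul_sub, mul_assoc, mul_assoc,
    mul_assoc, ← pow_succ, ← pow_succ']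

lemma adn_comm (u : A) (k : ℕ) (f : A) : adn u k (f * u) = adn u k f * u := by
  induction k generalizing f with
  | zero => rfl
  | succ k ih => rw [adn_succ, adn_succ, ih]; noncomm_ring

lemma pow_mul_eq (u f : A) (n : ℕ) :
    u ^ n * f = ∑ k ∈ range (n + 1), (n.choose k) • (adn u k f * u ^ (n - k)) := by
  have key : ∀ n : ℕ, u ^ n * f = ∑ m ∈ antidiagonal n, (n.choose m.1) • (adn u m.1 f * u ^ m.2) := by
    intro n
    induction n with
    | zero => simp [adn_zero]
    | succ n ih =>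
      rw [pow_succ', mul_assoc, ih, mul_sum]
      have e : ∀ m : ℕ × ℕ, u * (n.choose m.1 • (adn u m.1 f * u ^ m.2))
          = n.choose m.1 • (adn u (m.1 + 1) f * u ^ m.2)
            + n.choose m.1 • (adn u m.1 f * u ^ (m.2 + 1)) := by
        intro m
        rw [adn_succ, mul_smul_comm, ← smul_add, pow_succ']
        congr 1
        noncomm_ring
      simp only [e, sum_add_distrib]
      rw [Finset.sum_antidiagonal_choose_succ_nsmul (M := A)
        (fun i j => adn u i f * u ^ j) n, add_comm]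
      congr 1
      apply sum_congr rfl
      intro ij hij
      rw [HasAntidiagonal.mem_antidiagonal] at hij
      rw [Nat.choose_symm_of_eq_add hij.symm]
  rw [key, Finset.Nat.sum_antidiagonal_eq_sum_range_succ
    (f := fun i j => n.choose i • (adn u i f * u ^ j))]

/-- `[u^p, f] = ad_u^p f + p ψ(f)` -/
lemma ad_pow_eq {p : ℕ} (hp : p.Prime) (u : A) :
    ad (u ^ p) = adn u p + p • psi p u := by
  ext f
  obtain ⟨m, rfl⟩ : ∃ m, p = m + 1 := ⟨p - 1, by have := hp.pos; omega⟩
  rw [ad_apply, pow_mul_eq, sum_range_succ, sum_range_succ']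
  simp only [Nat.choose_zero_right, one_smul, adn_zero, Nat.sub_zero, Nat.choose_self,
    Nat.sub_self, pow_zero, mul_one, AddMonoidHom.add_apply]
  have h : ∑ k ∈ range m, (m + 1).choose (k + 1) • (adn u (k + 1) f * u ^ (m + 1 - (k + 1)))
      = ((m + 1) • psi (m + 1) u) f := by
    rw [AddMonoidHom.nsmul_apply, psi_apply', smul_sum]
    show _ = ∑ k ∈ range m, _
    apply sum_congr rfl
    intro k hk
    rw [smul_smul]
    congr 1
    have hk' := mem_range.1 hk
    exact (Nat.mul_div_cancel' (hp.dvd_choose_self (by omega) (by omega))).symm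
  rw [h]
  abel

lemma inner_add (v : ℕ → A) (p : ℕ) (E F : A →+ A) :
    inner v p (E + F) = inner v p E + inner v p F := by
  unfold inner
  simp only [AddMonoidHom.add_apply]
  rw [add_add_add_comm, ← sum_add_distrib]
  congr 1
  apply sum_congr rfl
  intro j _
  noncomm_ring

lemma inner_nsmul (v : ℕ → A) (p n : ℕ) (E : A →+ A) :
    inner v p (n • E) = n • inner v p E := by
  unfold inner
  simp only [AddMonoidHom.nsmul_apply]
  rw [smul_add, smul_sum]
  congr 1
  apply sum_congr rfl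
  intro j _
  simp only [smul_mul_assoc, mul_smul_comm, smul_sub]

lemma G_add {p : ℕ} [NeZero p] (x y : A) (E F : A →+ A) :
    G p x y (E + F) = G p x y E + G p x y F := by
  unfold G
  simp only [inner_add, AddMonoidHom.add_apply, sum_add_distrib]
  noncomm_ring

lemma G_nsmul {p : ℕ} [NeZero p] (n : ℕ) (x y : A) (E : A →+ A) :
    G p x y (n • E) = n • G p x y E := by
  unfold G
  simp only [inner_nsmul, AddMonoidHom.nsmul_apply, smul_sub, smul_sum, smul_mul_assoc,
    mul_smul_comm]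

/-- if all values of `E` lie in `C k` and `[N k, A] ⊆ C n`, then `G E ∈ C n` -/
lemma G_mem {p : ℕ} [NeZero p] {k n : ℕ} (hkn : C A k ≤ C A n)
    (H : ∀ m ∈ N A k, ∀ c : A, m * c - c * m ∈ C A n) (x y : A) (E : A →+ A)
    (hE : ∀ f, E f ∈ C A k) : G p x y E ∈ C A n := by
  have hN : ∀ f g, E f * g ∈ N A k := fun f g => N_mul_right g (C_le_N k (hE f))
  unfold G
  refine sub_mem (sub_mem (sum_mem ?_) ?_) ?_
  · intro w _
    unfold inner
    refine add_mem (hkn (hE _)) (sum_mem ?_)
    intro j _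
    exact H _ (hN _ _) _
  · exact br_swap (H _ (hN _ _) _)
  · exact H _ (hN _ _) _

lemma psi_mem (p : ℕ) (x y f : A) : psi p (x * y - y * x) f ∈ C A 2 :=
  br_mem' _ (br_mem x (mem_C_zero y))

lemma adn_mem (x y f : A) (k : ℕ) : adn (x * y - y * x) k f ∈ C A (2 * k) := by
  induction k with
  | zero => exact mem_C_zero _
  | succ k ih =>
    rw [adn_succ]
    have h := br_C_C 1 (2 * k) (br_mem x (mem_C_zero y)) ih
    have e : 1 + 2 * k + 1 = 2 * (k + 1) := by ring
    rwa [e] at h

/-- the element `t` -/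
def tt (p : ℕ) [NeZero p] (x y : A) : A := G p x y (psi p (x * y - y * x))

theorem tt_mem (p : ℕ) [NeZero p] (x y : A) : tt p x y ∈ C A 2 :=
  G_mem le_rfl (fun _ hm c => br_N2 hm c) x y _ (psi_mem p x y)

theorem p_tt_mem (p : ℕ) [Fact p.Prime] (hp : Odd p) (x y : A) :
    p • tt p x y ∈ C A (2 * p - 1) := by
  have hpr : p.Prime := Fact.out
  set u := x * y - y * x with hu
  have h0 : G p x y (ad (u ^ p)) = 0 := by
    apply G_eq_zero hp
    · intro a b
      simp only [ad_apply]
      noncomm_ring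
    · rw [ad_apply, ← hu, ← pow_succ, ← pow_succ', sub_self]
  rw [ad_pow_eq hpr, G_add, G_nsmul] at h0
  have h1 : G p x y (adn u p) ∈ C A (2 * p - 1) := by
    obtain ⟨m, rfl⟩ : ∃ m, p = m + 1 := ⟨p - 1, by have := hpr.pos; omega⟩
    exact G_mem (k := 2 * (m + 1)) (n := 2 * m + 1) (C_anti (by omega)) (br_N_even m) x y _
      (fun f => adn_mem x y f _)
  have h2 : p • tt p x y = -G p x y (adn u p) := by
    unfold tt
    rw [← hu]
    exact (neg_eq_of_add_eq_zero_right h0).symm
  rw [h2]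
  exact neg_mem h1

end Pool.Agent.H78.LCS
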