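import Pool.Agent.H78.LCS.Weyl

/-!
# The concrete matrices
-/

namespace Pool.Agent.H78.LCS

open Finset

section mats

variable {p : ℕ} [Fact p.Prime] {K : Type*} [CommRing K]

/-- weighted shift `e_j ↦ g j • e_{j+c}` -/
def sh (c : ZMod p) (g : ZMod p → K) : Matrix (ZMod p) (ZMod p) K :=
  Matrix.of fun i j => if i = j + c then g j else 0

lemma sh_apply (c : ZMod p) (g : ZMod p → K) (i j : ZMod p) :
    sh c g i j = if i = j + c then g j else 0 := rfl

lemma sh_mul (c c' : ZMod p) (g g' : ZMod p → K) :
    sh c g * sh c' g' = sh (c + c') (fun j => g (j + c') * g' j) := by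
  ext i j
  rw [Matrix.mul_apply, Finset.sum_eq_single (j + c')]
  · simp only [sh_apply]
    by_cases h : i = j + c' + c
    · have h' : i = j + (c + c') := by rw [h]; ring
      rw [if_pos h, if_pos h', if_pos trivial]
    · rw [if_neg h, zero_mul, if_neg]
      intro h'
      apply h
      rw [h']
      ring
  · intro k _ hk
    simp only [sh_apply]
    rw [if_neg hk, mul_zero]
  · intro h
    exact absurd (mem_univ _) h

lemma sh_zero_one : sh (0 : ZMod p) (fun _ => (1 : K)) = 1 := by
  ext i j
  simp [sh, Matrix.one_apply]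

lemma sh_one_pow (n : ℕ) : (sh (1 : ZMod p) (fun _ => (1 : K))) ^ n = sh (n : ZMod p) (fun _ => 1) := by
  induction n with
  | zero => simp [sh_zero_one]
  | succ n ih => rw [pow_succ, ih, sh_mul]; simp

lemma trace_sh (c : ZMod p) (g : ZMod p → K) :
    Matrix.trace (sh c g) = if c = 0 then ∑ j, g j else 0 := by
  simp only [Matrix.trace, Matrix.diag, sh, Matrix.of_apply]
  by_cases h : c = 0
  · simp [h]
  · rw [if_neg h]
    apply sum_eq_zero
    intro i _
    rw [if_neg]
    simpa using h

lemma sh_map {K' : Type*} [CommRing K'] (κ : K →+* K') (c : ZMod p) (g : ZMod p → K) :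
    (sh c g).map κ = sh c (fun j => κ (g j)) := by
  ext i j
  simp only [Matrix.map_apply, sh_apply]
  split_ifs <;> simp

variable (p K) in
/-- multiplication by `q` -/
def Qm : Matrix (ZMod p) (ZMod p) K := sh 1 (fun _ => 1)

/-- differentiation -/
def Dm (κ : ZMod p →+* K) : Matrix (ZMod p) (ZMod p) K := sh (-1) (fun j => κ j)

lemma weylPair (κ : ZMod p →+* K) : WeylPair (Dm κ) (Qm p K) := by
  constructor
  rw [Dm, Qm, sh_mul, sh_mul, ← sh_zero_one]
  ext i j
  simp only [sh_apply, Matrix.add_apply]
  rw [show (-1 + 1 : ZMod p) = 0 by ring, show (1 + -1 : ZMod p) = 0 by ring]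
  split_ifs
  · rw [map_add, map_one]
    ring
  · simp

lemma Qm_map (κ : ZMod p →+* K) : (Qm p (ZMod p)).map κ = Qm p K := by
  rw [Qm, sh_map, Qm]
  simp

lemma Dm_map (κ : ZMod p →+* K) : (Dm (RingHom.id (ZMod p))).map κ = Dm κ := by
  rw [Dm, sh_map, Dm]
  simp

lemma map_mul' {K' : Type*} [CommRing K'] (κ : K →+* K') (M N : Matrix (ZMod p) (ZMod p) K) :
    (M * N).map κ = M.map κ * N.map κ := Matrix.map_mul

lemma map_pow' {K' : Type*} [CommRing K'] (κ : K →+* K') (M : Matrix (ZMod p) (ZMod p) K) (n : ℕ) :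
    (M ^ n).map κ = M.map κ ^ n := by
  induction n with
  | zero => simp
  | succ n ih => rw [pow_succ, pow_succ, map_mul', ih]

lemma Q2D (κ : ZMod p →+* K) : Qm p K ^ 2 * Dm κ = sh 1 (fun j => κ j) := by
  rw [Qm, Dm, sh_one_pow, sh_mul]
  congr 1
  · push_cast; ring
  · funext j; simp

lemma Q2D_pow (κ : ZMod p →+* K) (n : ℕ) :
    (sh (1 : ZMod p) (fun j => κ j)) ^ n = sh (n : ZMod p) (fun j => κ (∏ k ∈ range n, (j + k))) := by
  induction n with
  | zero => simp [sh_zero_one]
  | succ n ih =>
    rw [pow_succ', ih, sh_mul]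
    congr 1
    · push_cast; ring
    · funext j
      rw [prod_range_succ, map_mul, mul_comm]

/-- a product of `p-1` consecutive elements -/
lemma prod_consec (j : ZMod p) : ∏ k ∈ range (p - 1), (j + (k : ZMod p))
    = if j = 1 then ((p - 1).factorial : ZMod p) else 0 := by
  have hp : p.Prime := Fact.out
  by_cases h : j = 1
  · rw [if_pos h, h, ← Finset.prod_range_add_one_eq_factorial]
    push_cast
    apply prod_congr rfl
    intro k _
    ring
  · rw [if_neg h]
    by_cases h0 : j = 0
    · apply Finset.prod_eq_zero (i := 0)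
      · rw [mem_range]
        have := hp.two_le
        omega
      · simp [h0]
    · have hv := ZMod.val_lt j
      have h1 : j.val ≠ 0 := by
        intro h
        exact h0 ((ZMod.val_eq_zero j).1 h)
      have h2 : j.val ≠ 1 := by
        intro h'
        apply h
        rw [← ZMod.natCast_zmod_val j, h']
        simp
      apply Finset.prod_eq_zero (i := p - j.val)
      · rw [mem_range]
        omega
      · rw [Nat.cast_sub hv.le]
        simp

/-- trace of `Q^{p+1} (Q^2 D)^{p-1}` -/
lemma trace_value (κ : ZMod p →+* K) :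
    Matrix.trace (Qm p K ^ (p + 1) * (Qm p K ^ 2 * Dm κ) ^ (p - 1))
      = κ ((p - 1).factorial : ZMod p) := by
  have hp : p.Prime := Fact.out
  rw [Q2D, Q2D_pow, Qm, sh_one_pow, sh_mul, trace_sh]
  have hc : ((p + 1 : ℕ) : ZMod p) + ((p - 1 : ℕ) : ZMod p) = 0 := by
    rw [Nat.cast_sub hp.one_lt.le]
    push_cast
    simp
  rw [if_pos hc]
  simp only [prod_consec, one_mul]
  rw [Finset.sum_eq_single_of_mem (1 : ZMod p) (mem_univ _)]
  · rw [if_pos rfl]
  · intro j _ hj
    rw [if_neg hj, map_zero]

end mats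

/-- number of `0`s in a word -/
def dx (w : FreeMonoid (Fin 2)) : ℕ := (FreeMonoid.toList w).count 0

/-- number of `1`s in a word -/
def dy (w : FreeMonoid (Fin 2)) : ℕ := (FreeMonoid.toList w).count 1

lemma dx_mul (v w : FreeMonoid (Fin 2)) : dx (v * w) = dx v + dx w := by
  simp [dx, FreeMonoid.toList_mul]

lemma dy_mul (v w : FreeMonoid (Fin 2)) : dy (v * w) = dy v + dy w := by
  simp [dy, FreeMonoid.toList_mul]

/-- number of pairs `0 ... 1` in a list -/
def invl : List (Fin 2) → ℕ
  | [] => 0
  | c :: l => (if c = 0 then l.count 1 else 0) + invl l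

lemma invl_append (l m : List (Fin 2)) :
    invl (l ++ m) = invl l + invl m + l.count 0 * m.count 1 := by
  induction l with
  | nil => simp [invl]
  | cons c l ih =>
    rw [List.cons_append, invl, invl, ih, List.count_append, List.count_cons]
    by_cases h : c = 0
    · simp [h]; ring
    · simp [h]

/-- number of pairs `0 ... 1` in a word -/
def inv (w : FreeMonoid (Fin 2)) : ℕ := invl (FreeMonoid.toList w)

lemma inv_mul (v w : FreeMonoid (Fin 2)) : inv (v * w) = inv v + inv w + dx v * dy w := by
  simp only [inv, dx, dy, FreeMonoid.toList_mul, invl_append]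

end Pool.Agent.H78.LCS
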