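import Pool.Agent.H78.LCS.Psi

/-!
# Abstract Weyl algebra representations
-/

namespace Pool.Agent.H78.LCS

open Finset

section abstractWeyl

variable {K M : Type*} [CommRing K] [Ring M] [Algebra K M]

/-- the data: `D Q = Q D + 1`. -/
structure WeylPair (D Q : M) : Prop where
  comm : D * Q = Q * D + 1

variable {D Q : M}

lemma DQ2 (h : WeylPair D Q) : D * Q ^ 2 = Q ^ 2 * D + 2 * Q := by
  have h := h.comm
  calc D * Q ^ 2 = (D * Q) * Q := by noncomm_ring
    _ = (Q * D + 1) * Q := by rw [h]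
    _ = Q * (D * Q) + Q := by noncomm_ring
    _ = Q * (Q * D + 1) + Q := by rw [h]
    _ = _ := by noncomm_ring

lemma YQ (h : WeylPair D Q) (t : K) : (t • D) * Q - Q * (t • D) = t • (1 : M) := by
  rw [smul_mul_assoc, mul_smul_comm, h.comm, ← smul_sub]
  congr 1
  abel

lemma U_eq (h : WeylPair D Q) (s t : K) :
    (s • Q ^ 2) * (t • D) - (t • D) * (s • Q ^ 2) = (-2 * s * t) • Q := by
  rw [smul_mul_smul_comm, smul_mul_smul_comm, DQ2 h, mul_comm t s, smul_add]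
  have : (2 : M) * Q = (2 : K) • Q := by
    rw [two_smul, two_mul]
  rw [this, smul_smul]
  have e : (-2 * s * t) = -(s * t * 2) := by ring
  rw [e, neg_smul]
  abel

lemma U_X (s t : K) :
    ((-2 * s * t) • Q) * (s • Q ^ 2) - (s • Q ^ 2) * ((-2 * s * t) • Q) = 0 := by
  rw [smul_mul_smul_comm, smul_mul_smul_comm, ← pow_succ', ← pow_succ,
    mul_comm s (-2 * s * t), sub_self]

lemma U_Y (h : WeylPair D Q) (s t : K) :
    ((-2 * s * t) • Q) * (t • D) - (t • D) * ((-2 * s * t) • Q) = (2 * s * t ^ 2) • (1 : M) := by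
  rw [smul_mul_smul_comm, smul_mul_smul_comm, h.comm, smul_add]
  have e : t * (-2 * s * t) = (-2 * s * t) * t := by ring
  rw [e]
  have e2 : (2 * s * t ^ 2) = - ((-2 * s * t) * t) := by ring
  rw [e2, neg_smul]
  abel

lemma comm_ind {t : K} {B : Subalgebra K M} {g x y : M} (hx : x ∈ B) (hy : y ∈ B)
    (h : ∃ c ∈ B, x * g - g * x = t • c) (h' : ∃ c ∈ B, y * g - g * y = t • c) :
    ∃ c ∈ B, (x * y) * g - g * (x * y) = t • c := by
  obtain ⟨c, hc, h⟩ := h
  obtain ⟨d, hd, h'⟩ := h'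
  refine ⟨x * d + c * y, add_mem (mul_mem hx hd) (mul_mem hc hy), ?_⟩
  rw [smul_add, ← mul_smul_comm, ← smul_mul_assoc, ← h, ← h']
  noncomm_ring

lemma comm_ind' {t : K} {B : Subalgebra K M} {g x y : M} (hx : x ∈ B) (hy : y ∈ B)
    (h : ∃ c ∈ B, g * x - x * g = t • c) (h' : ∃ c ∈ B, g * y - y * g = t • c) :
    ∃ c ∈ B, g * (x * y) - (x * y) * g = t • c := by
  obtain ⟨c, hc, h⟩ := h
  obtain ⟨d, hd, h'⟩ := h'
  refine ⟨x * d + c * y, add_mem (mul_mem hx hd) (mul_mem hc hy), ?_⟩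
  rw [smul_add, ← mul_smul_comm, ← smul_mul_assoc, ← h, ← h']
  noncomm_ring

/-- the order generated by `Q` and `Y = tD` -/
def BB (D Q : M) (t : K) : Subalgebra K M := Algebra.adjoin K {Q, t • D}

lemma Q_mem (t : K) : Q ∈ BB D Q t := Algebra.subset_adjoin (by simp)

lemma Y_mem (t : K) : t • D ∈ BB D Q t := Algebra.subset_adjoin (by simp)

lemma X_mem (s t : K) : s • Q ^ 2 ∈ BB D Q t := (BB D Q t).smul_mem (pow_mem (Q_mem t) 2) _

/-- commutators in `B` are divisible by `t` -/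
lemma BB_comm (hw : WeylPair D Q) (t : K) {a b : M} (ha : a ∈ BB D Q t) (hb : b ∈ BB D Q t) :
    ∃ c ∈ BB D Q t, a * b - b * a = t • c := by
  have h1 : ∀ b ∈ BB D Q t, ∀ g ∈ ({Q, t • D} : Set M),
      ∃ c ∈ BB D Q t, b * g - g * b = t • c := by
    intro b hb g hg
    refine Algebra.adjoin_induction (p := fun b _ => ∃ c ∈ BB D Q t, b * g - g * b = t • c)
      ?_ ?_ ?_ ?_ hb
    · intro b hb
      rcases hg with rfl | rfl <;> rcases hb with rfl | rfl
      · exact ⟨0, zero_mem _, by simp⟩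
      · exact ⟨1, one_mem _, YQ hw t⟩
      · refine ⟨-1, neg_mem (one_mem _), ?_⟩
        rw [smul_neg, ← YQ hw t]
        abel
      · exact ⟨0, zero_mem _, by simp⟩
    · intro r
      refine ⟨0, zero_mem _, ?_⟩
      rw [smul_zero, ← Algebra.commutes r g, sub_self]
    · rintro x y _ _ ⟨c, hc, h⟩ ⟨d, hd, h'⟩
      refine ⟨c + d, add_mem hc hd, ?_⟩
      rw [smul_add, ← h, ← h']
      noncomm_ring
    · intro x y hx hy h h'
      exact comm_ind hx hy h h'
  refine Algebra.adjoin_induction (p := fun b _ => ∃ c ∈ BB D Q t, a * b - b * a = t • c)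
      ?_ ?_ ?_ ?_ hb
  · intro g hg
    exact h1 a ha g hg
  · intro r
    refine ⟨0, zero_mem _, ?_⟩
    rw [smul_zero, ← Algebra.commutes r a, sub_self]
  · rintro x y _ _ ⟨c, hc, h⟩ ⟨d, hd, h'⟩
    refine ⟨c + d, add_mem hc hd, ?_⟩
    rw [smul_add, ← h, ← h']
    noncomm_ring
  · intro x y hx hy h h'
    exact comm_ind' hx hy h h'

lemma YQ_pow {Y : M} {t : K} (hY : Y * Q - Q * Y = t • (1 : M)) (c : ℕ) :
    Y ^ c * Q - Q * Y ^ c = ((c : K) * t) • Y ^ (c - 1) := by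
  induction c with
  | zero => simp
  | succ c ih =>
    have h1 : Y ^ (c + 1) * Q - Q * Y ^ (c + 1)
        = Y * (Y ^ c * Q - Q * Y ^ c) + (Y * Q - Q * Y) * Y ^ c := by
      rw [pow_succ']
      noncomm_ring
    rw [h1, ih, hY, mul_smul_comm, smul_mul_assoc, one_mul]
    rcases c with _ | c
    · simp
    · rw [Nat.add_sub_cancel, Nat.add_sub_cancel, ← pow_succ', ← add_smul]
      congr 1
      push_cast
      ring

lemma Y_Qpow {Y : M} {t : K} (hY : Y * Q - Q * Y = t • (1 : M)) (b : ℕ) :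
    Y * Q ^ b = Q ^ b * Y + ((b : K) * t) • Q ^ (b - 1) := by
  induction b with
  | zero => simp
  | succ b ih =>
    have h0 : Y * Q = Q * Y + t • 1 := by
      rw [← hY]; abel
    have h1 : Y * Q ^ (b + 1) = (Y * Q ^ b) * Q := by
      rw [pow_succ, mul_assoc]
    rw [h1, ih, add_mul, mul_assoc, h0, mul_add, smul_mul_assoc, mul_smul_comm, mul_one,
      ← mul_assoc, ← pow_succ, add_assoc]
    congr 1
    rcases b with _ | b
    · simp
    · rw [Nat.add_sub_cancel, Nat.add_sub_cancel, ← pow_succ, ← add_smul]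
      congr 1
      push_cast
      ring

variable (K) in
/-- the span of the monomials -/
def BS (Q Y : M) : Submodule K M :=
  Submodule.span K (Set.range fun bc : ℕ × ℕ => Q ^ bc.1 * Y ^ bc.2)

lemma mono_mem (Q Y : M) (b c : ℕ) : Q ^ b * Y ^ c ∈ BS K Q Y :=
  Submodule.subset_span ⟨(b, c), rfl⟩

lemma QmBS {Y m : M} (hm : m ∈ BS K Q Y) : Q * m ∈ BS K Q Y := by
  have : BS K Q Y ≤ (BS K Q Y).comap (LinearMap.mulLeft K Q) := by
    rw [BS, Submodule.span_le]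
    rintro _ ⟨⟨b, c⟩, rfl⟩
    show Q * (Q ^ b * Y ^ c) ∈ BS K Q Y
    rw [← mul_assoc, ← pow_succ']
    exact mono_mem _ _ _ _
  exact this hm

lemma YmBS {Y : M} {t : K} (hY : Y * Q - Q * Y = t • (1 : M)) {m : M} (hm : m ∈ BS K Q Y) :
    Y * m ∈ BS K Q Y := by
  have : BS K Q Y ≤ (BS K Q Y).comap (LinearMap.mulLeft K Y) := by
    rw [BS, Submodule.span_le]
    rintro _ ⟨⟨b, c⟩, rfl⟩
    show Y * (Q ^ b * Y ^ c) ∈ BS K Q Y
    rw [← mul_assoc, Y_Qpow hY, add_mul, mul_assoc, ← pow_succ', smul_mul_assoc]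
    exact add_mem (mono_mem _ _ _ _) (Submodule.smul_mem _ _ (mono_mem _ _ _ _))
  exact this hm

lemma BB_le_BS (hw : WeylPair D Q) (t : K) {b : M} (hb : b ∈ BB D Q t) :
    b ∈ BS K Q (t • D) := by
  have h : ∀ m ∈ BS K Q (t • D), b * m ∈ BS K Q (t • D) := by
    refine Algebra.adjoin_induction
      (p := fun b _ => ∀ m ∈ BS K Q (t • D), b * m ∈ BS K Q (t • D)) ?_ ?_ ?_ ?_ hb
    · rintro g (rfl | rfl) m hm
      · exact QmBS hm
      · exact YmBS (YQ hw t) hm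
    · intro r m hm
      rw [← Algebra.smul_def]
      exact Submodule.smul_mem _ _ hm
    · intro x y _ _ hx hy m hm
      rw [add_mul]
      exact add_mem (hx m hm) (hy m hm)
    · intro x y _ _ hx hy m hm
      rw [mul_assoc]
      exact hx _ (hy m hm)
  have h1 : (1 : M) ∈ BS K Q (t • D) := by
    simpa using mono_mem (K := K) Q (t • D) 0 0
  simpa using h 1 h1

/-- traces of monomials -/
lemma trace_mono [IsDomain K] (hw : WeylPair D Q) (t : K) (ht : t ≠ 0) (p : ℕ)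
    (hp : ∀ n : ℕ, 0 < n → n < p → (n : K) ≠ 0) (τ : M →ₗ[K] K)
    (hτ : ∀ a b, τ (a * b) = τ (b * a)) (b c : ℕ) :
    t ^ (p - 1) ∣ τ (Q ^ b * (t • D) ^ c) := by
  by_cases hc : c + 1 < p
  · have hY := YQ_pow (YQ hw t) (c + 1)
    have h1 : τ (Q ^ b * ((t • D) ^ (c + 1) * Q - Q * (t • D) ^ (c + 1))) = 0 := by
      have : Q ^ b * ((t • D) ^ (c + 1) * Q - Q * (t • D) ^ (c + 1))
          = (Q ^ b * (t • D) ^ (c + 1)) * Q - Q * (Q ^ b * (t • D) ^ (c + 1)) := by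
        have : Q * Q ^ b = Q ^ b * Q := by rw [← pow_succ, ← pow_succ']
        rw [mul_sub, ← mul_assoc, ← mul_assoc, ← mul_assoc, this]
      rw [this, map_sub, hτ, sub_self]
    rw [hY, mul_smul_comm, map_smul, smul_eq_mul, Nat.add_sub_cancel] at h1
    have h2 : ((c + 1 : ℕ) : K) * t ≠ 0 := mul_ne_zero (hp _ (by omega) hc) ht
    rcases mul_eq_zero.1 h1 with h | h
    · exact absurd h h2
    · rw [h]
      exact dvd_zero _
  · have h1 : Q ^ b * (t • D) ^ c = (t ^ c) • (Q ^ b * D ^ c) := by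
      rw [smul_pow, mul_smul_comm]
    rw [h1, map_smul, smul_eq_mul]
    exact Dvd.dvd.mul_right (pow_dvd_pow _ (by omega)) _

/-- traces of elements of `B` are divisible by `t^{p-1}` -/
lemma BB_trace [IsDomain K] (hw : WeylPair D Q) (t : K) (ht : t ≠ 0) (p : ℕ)
    (hp : ∀ n : ℕ, 0 < n → n < p → (n : K) ≠ 0) (τ : M →ₗ[K] K)
    (hτ : ∀ a b, τ (a * b) = τ (b * a)) {b : M} (hb : b ∈ BB D Q t) :
    t ^ (p - 1) ∣ τ b := by
  refine Submodule.span_induction (p := fun b _ => t ^ (p - 1) ∣ τ b) ?_ ?_ ?_ ?_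
    (BB_le_BS hw t hb)
  · rintro _ ⟨⟨b, c⟩, rfl⟩
    exact trace_mono hw t ht p hp τ hτ b c
  · rw [map_zero]
    exact dvd_zero _
  · intro x y _ _ hx hy
    rw [map_add]
    exact dvd_add hx hy
  · intro r x _ hx
    rw [map_smul, smul_eq_mul]
    exact Dvd.dvd.mul_left hx _

/-- if `ρ : A → M` is a ring homomorphism into `B`, then `ρ (C k) ⊆ t^k B`. -/
lemma rho_C {A : Type*} [Ring A] (hw : WeylPair D Q) (t : K) (ρ : A →+* M)
    (hρ : ∀ a, ρ a ∈ BB D Q t) (k : ℕ) : ∀ l ∈ C A k, ∃ b ∈ BB D Q t, ρ l = t ^ k • b := by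
  induction k with
  | zero =>
    intro l _
    exact ⟨ρ l, hρ l, by simp⟩
  | succ k ih =>
    intro l hl
    refine AddSubgroup.closure_induction
      (p := fun l _ => ∃ b ∈ BB D Q t, ρ l = t ^ (k + 1) • b) ?_ ?_ ?_ ?_ hl
    · rintro _ ⟨a, l, hl, rfl⟩
      obtain ⟨b, hb, h⟩ := ih l hl
      obtain ⟨c, hc, h'⟩ := BB_comm hw t (hρ a) hb
      refine ⟨c, hc, ?_⟩
      rw [map_sub, map_mul, map_mul, h, mul_smul_comm, smul_mul_assoc, ← smul_sub, h', smul_smul,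
        ← pow_succ]
    · exact ⟨0, zero_mem _, by simp⟩
    · rintro x y _ _ ⟨b, hb, h⟩ ⟨c, hc, h'⟩
      exact ⟨b + c, add_mem hb hc, by rw [map_add, h, h', smul_add]⟩
    · rintro x _ ⟨b, hb, h⟩
      exact ⟨-b, neg_mem hb, by rw [map_neg, h, smul_neg]⟩

/-- divisibility of `Tr ρ (a l)`. -/
lemma trace_mul_C {A : Type*} [Ring A] [IsDomain K] (hw : WeylPair D Q) (t : K) (ht : t ≠ 0)
    (p : ℕ) (hp : ∀ n : ℕ, 0 < n → n < p → (n : K) ≠ 0) (τ : M →ₗ[K] K)
    (hτ : ∀ a b, τ (a * b) = τ (b * a)) (ρ : A →+* M)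
    (hρ : ∀ a, ρ a ∈ BB D Q t) (k : ℕ) (a l : A) (hl : l ∈ C A k) :
    t ^ (k + (p - 1)) ∣ τ (ρ (a * l)) := by
  obtain ⟨b, hb, h⟩ := rho_C hw t ρ hρ k l hl
  rw [map_mul, h, mul_smul_comm, map_smul, smul_eq_mul, pow_add]
  exact mul_dvd_mul_left _ (BB_trace hw t ht p hp τ hτ (mul_mem (hρ a) hb))

lemma adn_map {A B : Type*} [Ring A] [Ring B] (ρ : A →+* B) (u f : A) (k : ℕ) :
    ρ (adn u k f) = adn (ρ u) k (ρ f) := by
  induction k with
  | zero => rfl
  | succ k ih => rw [adn_succ, adn_succ, map_sub, map_mul, map_mul, ih]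

lemma psi_map {A B : Type*} [Ring A] [Ring B] (ρ : A →+* B) (p : ℕ) (u f : A) :
    ρ (psi p u f) = psi p (ρ u) (ρ f) := by
  rw [psi_apply', psi_apply', map_sum]
  apply sum_congr rfl
  intro k _
  rw [map_nsmul, map_mul, adn_map, map_pow]

lemma psi_of_comm {B : Type*} [Ring B] (p : ℕ) (u f : B) (h : u * f - f * u = 0) :
    psi p u f = 0 := by
  rw [psi_apply']
  apply sum_eq_zero
  intro k _hk
  have : adn u (k + 1) f = 0 := by
    clear _hk
    induction k with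
    | zero => exact h
    | succ k ih => rw [adn_succ, ih]; simp
  rw [this, zero_mul, smul_zero]

lemma psi_of_central {B : Type*} [Ring B] {p : ℕ} (hp : 1 < p) (u f z : B)
    (h : u * f - f * u = z) (hz : u * z - z * u = 0) :
    psi p u f = z * u ^ (p - 1) := by
  rw [psi_apply', Finset.sum_eq_single_of_mem 0 (mem_range.2 (by omega))]
  · rw [Nat.choose_one_right, Nat.div_self (by omega), one_smul, adn_succ, adn_zero, h]
  · intro k hk' hk
    obtain ⟨k, rfl⟩ := Nat.exists_eq_succ_of_ne_zero hk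
    have : adn u (k + 1 + 1) f = 0 := by
      clear hk hk'
      induction k with
      | zero => rw [adn_succ, adn_succ, adn_zero, h, hz]
      | succ k ih => rw [adn_succ, ih]; simp
    rw [this, zero_mul, smul_zero]

/-- the value of `ρ (x ψ(y) (xy)^{p-1})` -/
lemma main_value (h : WeylPair D Q) (s t : K) {p : ℕ} (hp : 1 < p) :
    (s • Q ^ 2) * psi p ((s • Q ^ 2) * (t • D) - (t • D) * (s • Q ^ 2)) (t • D)
      * ((s • Q ^ 2) * (t • D)) ^ (p - 1)
      = (2 * (-2) ^ (p - 1) * s ^ (2 * p) * t ^ (2 * p)) •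
        (Q ^ (p + 1) * (Q ^ 2 * D) ^ (p - 1)) := by
  rw [U_eq h]
  have hz : ((-2 * s * t) • Q) * ((2 * s * t ^ 2) • (1 : M))
      - ((2 * s * t ^ 2) • (1 : M)) * ((-2 * s * t) • Q) = 0 := by
    rw [smul_mul_smul_comm, smul_mul_smul_comm, mul_one, one_mul, mul_comm, sub_self]
  rw [psi_of_central hp _ _ ((2 * s * t ^ 2) • (1 : M)) (U_Y h s t) hz]
  rw [smul_mul_smul_comm, smul_pow, smul_pow, smul_mul_smul_comm, one_mul,
    smul_mul_smul_comm, smul_mul_smul_comm, ← pow_add]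
  obtain ⟨m, rfl⟩ : ∃ m, p = m + 1 := ⟨p - 1, by omega⟩
  simp only [Nat.add_sub_cancel]
  have e : 2 + m = m + 1 + 1 := by ring
  rw [e]
  congr 1
  ring

lemma zero_value (h : WeylPair D Q) (s t : K) {p : ℕ} :
    psi p ((s • Q ^ 2) * (t • D) - (t • D) * (s • Q ^ 2)) (s • Q ^ 2) = 0 := by
  rw [U_eq h]
  exact psi_of_comm p _ _ (U_X s t)

end abstractWeyl

end Pool.Agent.H78.LCS
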